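import Mathlib

/-! Second-player winning rings of every Krull dimension in Ideal Chomp (helper135). -/

namespace Pool.Agent.Results.MP_ba75bf_co.EveryKrullDimension

open Ideal

mutual

/-- The player to move at the proper ideal `I` has a winning strategy: some legal move `a` does not
produce the whole ring and leads to a position where the player to move loses. -/
inductive MoverWins {R : Type} [CommRing R] : Ideal R → Prop
  | intro (I : Ideal R) (a : R) (ha : a ∉ I) (hne : I ⊔ span {a} ≠ ⊤)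
      (h : MoverLoses (I ⊔ span {a})) : MoverWins I

/-- The player who is not to move at `I` has a winning strategy: every legal move `a` produces the
whole ring or leads to a position where the player to move wins. -/
inductive MoverLoses {R : Type} [CommRing R] : Ideal R → Prop
  | intro (I : Ideal R) (h : ∀ a ∉ I, I ⊔ span {a} ≠ ⊤ → MoverWins (I ⊔ span {a})) : MoverLoses I

end

section Pair

variable {B : Type} [CommRing B] [IsLocalRing B] [IsNoetherianRing B] (ρ : B →+* ℂ)

/-- The elements with real residue. -/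
def W : Subring B := Subring.comap ρ (Complex.ofRealHom).range

variable {ρ}

theorem mem_W {b : B} : b ∈ W ρ ↔ ∃ r : ℝ, (r : ℂ) = ρ b := by
  simp [W]

theorem mem_W_of_zero {b : B} (h : ρ b = 0) : b ∈ W ρ := mem_W.2 ⟨0, by simp [h]⟩

variable (hρ : Function.Surjective ρ)

include hρ

theorem unit_iff {b : B} : IsUnit b ↔ ρ b ≠ 0 := by
  have hker : RingHom.ker ρ = IsLocalRing.maximalIdeal B :=
    IsLocalRing.eq_maximalIdeal (RingHom.ker_isMaximal_of_surjective ρ hρ)
  rw [← IsLocalRing.notMem_maximalIdeal, ← hker, RingHom.mem_ker]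

/-- Elements of `W` with nonzero residue are units of `W`. -/
theorem isUnit_W {w : W ρ} (h : ρ w ≠ 0) : IsUnit w := by
  obtain ⟨u, hu⟩ := (unit_iff hρ).2 h
  obtain ⟨r, hr⟩ := mem_W.1 w.2
  have h1 : ρ (↑u⁻¹ : B) * ρ w = 1 := by
    rw [← map_mul, ← hu, Units.inv_mul, map_one]
  have h2 : (↑u⁻¹ : B) ∈ W ρ := by
    refine mem_W.2 ⟨r⁻¹, ?_⟩
    have h3 : ρ (↑u⁻¹ : B) = (ρ w)⁻¹ := eq_inv_of_mul_eq_one_left h1
    rw [h3, ← hr]
    simp
  refine IsUnit.of_mul_eq_one ⟨↑u⁻¹, h2⟩ ?_
  apply Subtype.ext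
  simp only [Subring.coe_mul, Subring.coe_one]
  rw [← hu]
  exact u.mul_inv

/-- The trace on `W` of an ideal of `B`. -/
abbrev tr (ρ : B →+* ℂ) (J : Ideal B) : Ideal (W ρ) := J.comap (W ρ).subtype

theorem exists_lam : ∃ l : B, ρ l = Complex.I := hρ _

/-- Every element of `B` is `w₁ + λ w₂`. -/
theorem decomp {l : B} (hl : ρ l = Complex.I) (b : B) :
    ∃ w₁ w₂ : W ρ, b = w₁ + l * w₂ := by
  obtain ⟨x, hx⟩ := hρ ((ρ b).re : ℂ)
  obtain ⟨y, hy⟩ := hρ ((ρ b).im : ℂ)
  have h1 : b - l * y ∈ W ρ := by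
    refine mem_W.2 ⟨(ρ b).re, ?_⟩
    rw [map_sub, map_mul, hl, hy]
    apply Complex.ext <;> simp
  exact ⟨⟨b - l * y, h1⟩, ⟨y, mem_W.2 ⟨(ρ b).im, hy.symm⟩⟩, by simp⟩

theorem tr_step {l : B} (hl : ρ l = Complex.I) {J : Ideal B} (hJ : ∀ x ∈ J, ρ x = 0)
    {a : W ρ} (ha : ρ a = 0) (hla : l * a ∈ W ρ) :
    tr ρ J ⊔ span {a} ⊔ span {(⟨l * a, hla⟩ : W ρ)} = tr ρ (J ⊔ span {(a : B)}) := by
  apply le_antisymm
  · refine sup_le (sup_le ?_ ?_) ?_
    · exact comap_mono le_sup_left
    · rw [span_singleton_le_iff_mem, mem_comap]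
      exact le_sup_right (a := J) (mem_span_singleton_self _)
    · rw [span_singleton_le_iff_mem, mem_comap]
      exact le_sup_right (a := J) (mul_mem_left _ l (mem_span_singleton_self _))
  · intro x hx
    rw [mem_comap, Submodule.mem_sup] at hx
    obtain ⟨i, hi, z, hz, hiz⟩ := hx
    rw [mem_span_singleton'] at hz
    obtain ⟨b, rfl⟩ := hz
    obtain ⟨w₁, w₂, rfl⟩ := decomp hρ hl b
    have hx' : x = ⟨i, mem_W_of_zero (hJ i hi)⟩ + w₁ * a + w₂ * ⟨l * a, hla⟩ := by
      apply Subtype.ext
      have : (x : B) = i + (w₁ + l * w₂) * a := hiz.symm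
      rw [this]
      simp only [Subring.coe_add, Subring.coe_mul]
      ring
    rw [hx']
    refine Submodule.add_mem _ (Submodule.add_mem _ ?_ ?_) ?_
    · exact le_sup_left (a := tr ρ J ⊔ span {a}) (le_sup_left (a := tr ρ J) hi)
    · exact le_sup_left (a := tr ρ J ⊔ span {a}) (le_sup_right (a := tr ρ J)
        (mul_mem_left _ _ (mem_span_singleton_self _)))
    · exact le_sup_right (a := tr ρ J ⊔ span {a}) (mul_mem_left _ _ (mem_span_singleton_self _))

/-- The pairing strategy. -/
theorem pairing {l : B} (hl : ρ l = Complex.I) :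
    ∀ J : Ideal B, (∀ x ∈ J, ρ x = 0) → MoverLoses (tr ρ J) := by
  intro J
  induction J using WellFoundedGT.induction with
  | ind J ih =>
    intro hJ
    refine MoverLoses.intro _ fun a ha hne => ?_
    have ha0 : ρ a = 0 := by
      by_contra h
      apply hne
      rw [eq_top_iff, ← span_singleton_eq_top.2 (isUnit_W hρ h)]
      exact le_sup_right
    have hla : l * a ∈ W ρ := mem_W_of_zero (by rw [map_mul, ha0, mul_zero])
    have haJ : (a : B) ∉ J := ha
    have hJ' : ∀ x ∈ J ⊔ span {(a : B)}, ρ x = 0 := by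
      intro x hx
      rw [Submodule.mem_sup] at hx
      obtain ⟨i, hi, z, hz, rfl⟩ := hx
      rw [mem_span_singleton'] at hz
      obtain ⟨b, rfl⟩ := hz
      rw [map_add, hJ i hi, map_mul, ha0, mul_zero, add_zero]
    have hlt : J < J ⊔ span {(a : B)} := by
      refine lt_of_le_of_ne le_sup_left fun h => haJ ?_
      rw [h]
      exact le_sup_right (a := J) (mem_span_singleton_self _)
    refine MoverWins.intro _ (⟨l * a, hla⟩ : W ρ) ?_ ?_ ?_
    · intro hmem
      rw [Submodule.mem_sup] at hmem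
      obtain ⟨i, hi, z, hz, hiz⟩ := hmem
      rw [mem_span_singleton'] at hz
      obtain ⟨w, rfl⟩ := hz
      have h1 : (i : B) + w * a = l * a := congrArg Subtype.val hiz
      have h2 : (l - w) * a ∈ J := by
        have : (l - w) * a = (i : B) := by rw [sub_mul, ← h1]; ring
        rw [this]
        exact hi
      have h3 : IsUnit (l - (w : B)) := by
        rw [unit_iff hρ, map_sub, hl]
        obtain ⟨r, hr⟩ := mem_W.1 w.2
        rw [← hr]
        intro h4
        have := congrArg Complex.im h4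
        simp at this
      exact haJ ((unit_mul_mem_iff_mem J h3).1 h2)
    · rw [tr_step hρ hl hJ ha0 hla]
      intro htop
      have : (1 : W ρ) ∈ tr ρ (J ⊔ span {(a : B)}) := by rw [htop]; trivial
      have := hJ' _ this
      simp at this
    · rw [tr_step hρ hl hJ ha0 hla]
      exact ih _ hlt hJ'

theorem second_wins : MoverLoses (⊥ : Ideal (W ρ)) := by
  obtain ⟨l, hl⟩ := exists_lam hρ
  have h := pairing hρ hl ⊥ (by simp)
  have e : tr ρ (⊥ : Ideal B) = ⊥ := by
    rw [eq_bot_iff]
    intro x hx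
    rw [mem_comap, mem_bot] at hx
    rw [mem_bot]
    exact Subtype.ext hx
  rwa [e] at h

/-- Contraction of prime ideals of `B` to `W` is surjective. -/
theorem comap_surj : Function.Surjective (PrimeSpectrum.comap (W ρ).subtype) := by
  intro P
  by_cases hP : ∀ w : W ρ, ρ w = 0 → w ∈ P.asIdeal
  · refine ⟨⟨IsLocalRing.maximalIdeal B, inferInstance⟩, ?_⟩
    apply PrimeSpectrum.ext
    apply le_antisymm
    · intro w hw
      apply hP
      by_contra h
      have : (w : B) ∈ IsLocalRing.maximalIdeal B := hw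
      exact (IsLocalRing.notMem_maximalIdeal.2 ((unit_iff hρ).2 h)) this
    · intro w hw
      change (w : B) ∈ IsLocalRing.maximalIdeal B
      by_contra h
      have h1 := isUnit_W hρ ((unit_iff hρ).1 (IsLocalRing.notMem_maximalIdeal.1 h))
      exact P.2.ne_top (eq_top_of_isUnit_mem _ hw h1)
  · push Not at hP
    obtain ⟨x, hx0, hxP⟩ := hP
    have hz : ∀ b : B, b * x ∈ W ρ := fun b => mem_W_of_zero (by rw [map_mul, hx0, mul_zero])
    have hzero : ∀ b : B, ρ (b * x) = 0 := fun b => by rw [map_mul, hx0, mul_zero]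
    let Q : Ideal B :=
      { carrier := {b | (⟨b * x, hz b⟩ : W ρ) ∈ P.asIdeal}
        add_mem' := by
          intro b c hb hc
          have := P.asIdeal.add_mem hb hc
          have e : (⟨(b + c) * x, hz _⟩ : W ρ) = ⟨b * x, hz b⟩ + ⟨c * x, hz c⟩ :=
            Subtype.ext (by simp [add_mul])
          change (⟨(b + c) * x, hz _⟩ : W ρ) ∈ P.asIdeal
          rw [e]
          exact this
        zero_mem' := by
          have e : (⟨0 * x, hz 0⟩ : W ρ) = 0 := Subtype.ext (by simp)
          change (⟨0 * x, hz 0⟩ : W ρ) ∈ P.asIdeal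
          rw [e]
          exact P.asIdeal.zero_mem
        smul_mem' := by
          intro c b hb
          change (⟨c • b * x, hz _⟩ : W ρ) ∈ P.asIdeal
          have h1 : (⟨c * x, hz c⟩ : W ρ) * ⟨b * x, hz b⟩ ∈ P.asIdeal :=
            P.asIdeal.mul_mem_left _ hb
          have e : (⟨c * x, hz c⟩ : W ρ) * ⟨b * x, hz b⟩ = ⟨c • b * x, hz _⟩ * x :=
            Subtype.ext (by simp; ring)
          rw [e] at h1
          exact (P.2.mem_or_mem h1).resolve_right hxP }
    have hQmem : ∀ b, b ∈ Q ↔ (⟨b * x, hz b⟩ : W ρ) ∈ P.asIdeal := fun b => Iff.rfl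
    have hQ : Q.IsPrime := by
      refine ⟨?_, ?_⟩
      · intro h
        have : (1 : B) ∈ Q := by rw [h]; trivial
        rw [hQmem] at this
        apply hxP
        have e : (⟨1 * x, hz 1⟩ : W ρ) = x := Subtype.ext (by simp)
        rwa [e] at this
      · intro b c hbc
        rw [hQmem] at hbc
        have h1 : (⟨b * x, hz b⟩ : W ρ) * ⟨c * x, hz c⟩ ∈ P.asIdeal := by
          have e : (⟨b * x, hz b⟩ : W ρ) * ⟨c * x, hz c⟩ = ⟨b * c * x, hz _⟩ * x :=
            Subtype.ext (by simp; ring)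
          rw [e]
          exact P.asIdeal.mul_mem_right _ hbc
        exact P.2.mem_or_mem h1
    refine ⟨⟨Q, hQ⟩, ?_⟩
    apply PrimeSpectrum.ext
    apply le_antisymm
    · intro w hw
      have h1 : (⟨w * x, hz w⟩ : W ρ) ∈ P.asIdeal := hw
      have e : (⟨w * x, hz w⟩ : W ρ) = w * x := Subtype.ext (by simp)
      rw [e] at h1
      exact (P.2.mem_or_mem h1).resolve_right hxP
    · intro w hw
      change (⟨w * x, hz w⟩ : W ρ) ∈ P.asIdeal
      have e : (⟨w * x, hz w⟩ : W ρ) = w * x := Subtype.ext (by simp)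
      rw [e]
      exact P.asIdeal.mul_mem_right _ hw

/-- Contraction of prime ideals reflects inclusions. -/
theorem comap_le_iff (P Q : PrimeSpectrum B) :
    PrimeSpectrum.comap (W ρ).subtype P ≤ PrimeSpectrum.comap (W ρ).subtype Q ↔ P ≤ Q := by
  constructor
  · intro h
    by_cases hQ : ∀ b : B, ρ b = 0 → b ∈ Q.asIdeal
    · intro p hp
      apply hQ
      by_contra h0
      exact P.2.ne_top (eq_top_of_isUnit_mem _ hp ((unit_iff hρ).2 h0))
    · push Not at hQ
      obtain ⟨x, hx0, hxQ⟩ := hQ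
      intro p hp
      have hz : p * x ∈ W ρ := mem_W_of_zero (by rw [map_mul, hx0, mul_zero])
      have h1 : (⟨p * x, hz⟩ : W ρ) ∈ (PrimeSpectrum.comap (W ρ).subtype P).asIdeal :=
        P.asIdeal.mul_mem_right _ hp
      have h2 : p * x ∈ Q.asIdeal := h h1
      exact (Q.2.mem_or_mem h2).resolve_right hxQ
  · intro h w hw
    exact h hw

theorem dim_eq : ringKrullDim (W ρ) = ringKrullDim B := by
  let f : PrimeSpectrum B ↪o PrimeSpectrum (W ρ) :=
    OrderEmbedding.ofMapLEIff (PrimeSpectrum.comap (W ρ).subtype) (comap_le_iff hρ)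
  exact (Order.krullDim_eq_of_orderIso (RelIso.ofSurjective f (comap_surj hρ))).symm

theorem tr_bot : tr ρ (⊥ : Ideal B) = ⊥ := by
  rw [eq_bot_iff]
  intro x hx
  rw [mem_comap, mem_bot] at hx
  rw [mem_bot]
  exact Subtype.ext hx

/-- The ring `W` is Noetherian. -/
theorem noetherian : IsNoetherianRing (W ρ) := by
  classical
  obtain ⟨l, hl⟩ := exists_lam hρ
  have key : ∀ s : Finset B, (∀ x ∈ s, ρ x = 0) → (tr ρ (span (s : Set B))).FG := by
    intro s
    induction s using Finset.induction_on with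
    | empty =>
      intro _
      rw [Finset.coe_empty, span_empty, tr_bot hρ]
      exact Submodule.fg_bot
    | insert a s has ih =>
      intro h
      have e : span (↑(insert a s) : Set B) = span (s : Set B) ⊔ span {a} := by
        rw [Finset.coe_insert, span_insert, sup_comm]
      have ha : ρ a = 0 := h a (Finset.mem_insert_self a s)
      have hs : ∀ x ∈ s, ρ x = 0 := fun x hx => h x (Finset.mem_insert_of_mem hx)
      have hJ : ∀ x ∈ span (s : Set B), ρ x = 0 := by
        intro x hx
        have h1 : span (s : Set B) ≤ RingHom.ker ρ := by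
          rw [span_le]
          intro y hy
          exact (RingHom.mem_ker).2 (hs y hy)
        exact (RingHom.mem_ker).1 (h1 hx)
      have hla : l * (⟨a, mem_W_of_zero ha⟩ : W ρ) ∈ W ρ :=
        mem_W_of_zero (by rw [map_mul, ha, mul_zero])
      have h2 := tr_step hρ hl (J := span (s : Set B)) hJ (a := ⟨a, mem_W_of_zero ha⟩) ha hla
      rw [e]
      change (tr ρ (span (s : Set B) ⊔ span {((⟨a, mem_W_of_zero ha⟩ : W ρ) : B)})).FG
      rw [← h2]
      exact Submodule.FG.sup (Submodule.FG.sup (ih hs) (Submodule.fg_span_singleton _))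
        (Submodule.fg_span_singleton _)
  refine IsNoetherianRing.of_prime fun P hP => ?_
  obtain ⟨Q, hQ⟩ := comap_surj hρ ⟨P, hP⟩
  have hPQ : tr ρ Q.asIdeal = P := congrArg PrimeSpectrum.asIdeal hQ
  obtain ⟨s, hs⟩ := (isNoetherianRing_iff_ideal_fg B).1 inferInstance Q.asIdeal
  rw [← hPQ, ← hs]
  refine key s fun x hx => ?_
  by_contra h0
  have hxQ : x ∈ Q.asIdeal := by
    rw [← hs]
    exact subset_span hx
  exact Q.2.ne_top (eq_top_of_isUnit_mem _ hxQ ((unit_iff hρ).2 h0))

end Pair

/-- A Noetherian local ring of dimension `n` with a surjection onto `ℂ`. -/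
theorem exists_local (n : ℕ) : ∃ (B : Type) (_ : CommRing B) (_ : IsLocalRing B)
    (_ : IsNoetherianRing B) (ρ : B →+* ℂ), Function.Surjective ρ ∧ ringKrullDim B = n := by
  have hdim : ringKrullDim (MvPolynomial (Fin n) ℂ) = n := by
    rw [MvPolynomial.ringKrullDim_of_isNoetherianRing, ringKrullDim_eq_zero_of_field]
    simp
  have : FiniteRingKrullDim (MvPolynomial (Fin n) ℂ) := by
    rw [finiteRingKrullDim_iff_ne_bot_and_top, hdim]
    constructor
    · exact WithBot.coe_ne_bot
    · intro h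
      have h' : ((n : ℕ∞) : WithBot ℕ∞) = ((⊤ : ℕ∞) : WithBot ℕ∞) := h
      rw [WithBot.coe_inj] at h'
      exact ENat.natCast_ne_top n h'
  obtain ⟨M, hM, hMh⟩ := Ideal.exists_isMaximal_height (R := MvPolynomial (Fin n) ℂ)
  rw [hdim] at hMh
  obtain ⟨x, hx⟩ := MvPolynomial.isMaximal_iff_eq_vanishingIdeal_singleton.1 hM
  have hker : ∀ p : MvPolynomial (Fin n) ℂ, p ∈ M ↔ MvPolynomial.eval x p = 0 := by
    intro p
    rw [hx, MvPolynomial.mem_vanishingIdeal_singleton_iff]
    rfl
  let g : MvPolynomial (Fin n) ℂ →+* ℂ := MvPolynomial.eval x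
  have hg : ∀ y : M.primeCompl, IsUnit (g y) := by
    intro y
    rw [isUnit_iff_ne_zero]
    intro h0
    exact y.2 ((hker _).2 h0)
  refine ⟨Localization.AtPrime M, inferInstance, inferInstance, inferInstance,
    IsLocalization.lift hg, ?_, ?_⟩
  · intro z
    refine ⟨algebraMap (MvPolynomial (Fin n) ℂ) (Localization.AtPrime M) (MvPolynomial.C z), ?_⟩
    rw [IsLocalization.lift_eq]
    simp [g]
  · rw [IsLocalization.AtPrime.ringKrullDim_eq_height M, hMh]

/-- In every Krull dimension there is a Noetherian ring on which the second player wins Ideal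
Chomp. -/
theorem result : ∀ n : ℕ, ∃ (R : Type) (_ : CommRing R), IsNoetherianRing R ∧
    ringKrullDim R = n ∧ MoverLoses (⊥ : Ideal R) := by
  intro n
  obtain ⟨B, _, _, _, ρ, hρ, hB⟩ := exists_local n
  exact ⟨W ρ, inferInstance, noetherian hρ, (dim_eq hρ).trans hB, second_wins hρ⟩

end Pool.Agent.Results.MP_ba75bf_co.EveryKrullDimension
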